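import Mathlib

/-!
# Monotonicity of the number of 2-hooks in `t`-regular partitions

For all `t ≥ 3` and all `n`, the number of hooks of length `2` in the `t`-regular partitions of `n`
is at most the number of hooks of length `2` in the `(t+1)`-regular partitions of `n`.
-/

namespace Pool.Agent.Results.MP_6996b5_co.TwoHookMono

/-- The `i`-th largest part of the partition `p` (counting from `0`), and `0` if there is none:
the length of row `i` of the Young diagram. -/
def row {n : ℕ} (p : n.Partition) (i : ℕ) : ℕ := (p.parts.sort (· ≥ ·)).getD i 0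

/-- The number of parts of `p` which are larger than `j`: the length of column `j` (counting from
`0`) of the Young diagram. -/
def col {n : ℕ} (p : n.Partition) (j : ℕ) : ℕ := p.parts.countP (fun m => j < m)

/-- The hook length of the cell `(i, j)` (both counted from `0`) of the Young diagram of `p`: the
number of cells to the right of it in its row, plus the number of cells below it in its column,
plus one. -/
def hook {n : ℕ} (p : n.Partition) (i j : ℕ) : ℕ :=
  (row p i - (j + 1)) + (col p j - (i + 1)) + 1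

/-- The number of cells `(i, j)` of the Young diagram of `p` whose hook length is `k`. -/
def hookCount (k : ℕ) {n : ℕ} (p : n.Partition) : ℕ :=
  ((Finset.range n ×ˢ Finset.range n).filter
    (fun c => c.2 < row p c.1 ∧ hook p c.1 c.2 = k)).card

/-- The `t`-regular partitions of `n`: no part is divisible by `t`. -/
def regular (t n : ℕ) : Finset n.Partition :=
  Finset.univ.filter (fun p => ∀ m ∈ p.parts, ¬ t ∣ m)

/-- The total number of hooks of length `k` in all the `t`-regular partitions of `n`. -/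
def b (t k n : ℕ) : ℕ := ∑ p ∈ regular t n, hookCount k p

/-! ## Hooks of length two -/

lemma dual_list (l : List ℕ) (hl : l.Pairwise (· ≥ ·)) (i j : ℕ) :
    j < l.getD i 0 ↔ i < l.countP (fun m => j < m) := by
  induction l generalizing i with
  | nil => simp
  | cons a l ih =>
    rw [List.pairwise_cons] at hl
    obtain ⟨h1, h2⟩ := hl
    rw [List.countP_cons]
    by_cases ha : j < a
    · cases i with
      | zero => simp [ha]
      | succ i => simpa [ha] using ih h2 i
    · have h0 : l.countP (fun m => decide (j < m)) = 0 := by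
        rw [List.countP_eq_zero]
        intro x hx
        have := h1 x hx
        simp only [decide_eq_true_eq]
        omega
      cases i with
      | zero => simp [ha, h0]
      | succ i =>
        have := ih h2 i
        rw [h0] at this
        simp only [List.getD_cons_succ, this, h0, ha]
        simp

lemma lt_row_iff {n : ℕ} (p : n.Partition) (i j : ℕ) : j < row p i ↔ i < col p j := by
  unfold row col
  have h := dual_list (p.parts.sort (· ≥ ·)) (Multiset.pairwise_sort _ _) i j
  rw [h]
  have : p.parts.countP (fun m => j < m) =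
      (p.parts.sort (· ≥ ·)).countP (fun m => decide (j < m)) := by
    conv_lhs => rw [← Multiset.sort_eq p.parts (· ≥ ·)]
    rw [Multiset.coe_countP]
  rw [this]

lemma countP_succ (s : Multiset ℕ) (j : ℕ) :
    s.countP (fun m => j < m) = s.countP (fun m => j + 1 < m) + s.count (j + 1) := by
  induction s using Multiset.induction_on with
  | empty => simp
  | cons a s ih =>
    rw [Multiset.countP_cons, Multiset.countP_cons, Multiset.count_cons, ih]
    split_ifs <;> omega

lemma col_succ {n : ℕ} (p : n.Partition) (j : ℕ) :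
    col p j = col p (j + 1) + p.parts.count (j + 1) := countP_succ _ _

lemma col_le {n : ℕ} (p : n.Partition) (j : ℕ) : col p j ≤ n := by
  have h1 : col p j ≤ p.parts.card := Multiset.countP_le_card _ _
  have h2 : p.parts.card ≤ p.parts.sum := by
    have := Multiset.card_nsmul_le_sum (s := p.parts) (a := 1) (fun x hx => p.parts_pos hx)
    simpa using this
  rw [p.parts_sum] at h2
  omega

lemma lt_of_col_pos {n : ℕ} (p : n.Partition) (j : ℕ) (h : 0 < col p j) : j < n := by
  unfold col at h
  rw [Multiset.countP_pos] at h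
  obtain ⟨m, hm, hj⟩ := h
  have := p.le_of_mem_parts hm
  omega

lemma hookCount_two {n : ℕ} (p : n.Partition) :
    hookCount 2 p =
      ((Finset.Icc 2 n).filter (fun s => s ∈ p.parts ∧ s - 1 ∉ p.parts)).card +
      ((Finset.Icc 1 n).filter (fun s => 2 ≤ p.parts.count s)).card := by
  classical
  unfold hookCount
  have hsplit : ((Finset.range n ×ˢ Finset.range n).filter
      (fun c => c.2 < row p c.1 ∧ hook p c.1 c.2 = 2)) =
      ((Finset.range n ×ˢ Finset.range n).filter
        (fun c => row p c.1 = c.2 + 2 ∧ col p c.2 = c.1 + 1)) ∪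
      ((Finset.range n ×ˢ Finset.range n).filter
        (fun c => row p c.1 = c.2 + 1 ∧ col p c.2 = c.1 + 2)) := by
    ext ⟨i, j⟩
    simp only [Finset.mem_filter, Finset.mem_union]
    unfold hook
    have := lt_row_iff p i j
    constructor
    · rintro ⟨hm, h1, h2⟩
      have h3 := this.1 h1
      have : (row p i = j + 2 ∧ col p j = i + 1) ∨ (row p i = j + 1 ∧ col p j = i + 2) := by
        omega
      tauto
    · rintro (⟨hm, h1, h2⟩ | ⟨hm, h1, h2⟩)
      · exact ⟨hm, by omega, by omega⟩
      · exact ⟨hm, by omega, by omega⟩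
  rw [hsplit, Finset.card_union_of_disjoint]
  · congr 1
    · refine Finset.card_nbij' (fun c => c.2 + 2) (fun s => (col p (s - 2) - 1, s - 2)) ?_ ?_ ?_ ?_
      · rintro ⟨i, j⟩ hc
        simp only [Finset.coe_filter, Finset.mem_product, Finset.mem_range, Set.mem_ofPred_eq,
          Finset.mem_Icc] at hc ⊢
        obtain ⟨⟨hi, hj⟩, h1, h2⟩ := hc
        have e1 := lt_row_iff p i (j + 1)
        have e2 := lt_row_iff p i (j + 2)
        have c1 := col_succ p j
        have c2 := col_succ p (j + 1)
        have f1 : i < col p (j + 1) := e1.1 (by omega)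
        have f2 : ¬ i < col p (j + 2) := fun h => by have := e2.2 h; omega
        have g1 : p.parts.count (j + 1) = 0 := by omega
        have c2' : col p (j + 1) = col p (j + 2) + p.parts.count (j + 2) := c2
        have g2 : 0 < p.parts.count (j + 2) := by omega
        have m2 : j + 2 ∈ p.parts := Multiset.count_pos.1 g2
        refine ⟨⟨by omega, p.le_of_mem_parts m2⟩, m2, ?_⟩
        have : j + 2 - 1 = j + 1 := by omega
        rw [this]
        exact Multiset.count_eq_zero.1 g1
      · intro s hs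
        simp only [Finset.coe_filter, Finset.mem_product, Finset.mem_range, Set.mem_ofPred_eq,
          Finset.mem_Icc] at hs ⊢
        obtain ⟨⟨hs2, hsn⟩, m1, m2⟩ := hs
        obtain ⟨j, rfl⟩ : ∃ j, s = j + 2 := ⟨s - 2, by omega⟩
        have hj2 : j + 2 - 2 = j := by omega
        have hj1 : j + 2 - 1 = j + 1 := by omega
        rw [hj2]
        rw [hj1] at m2
        have c1 := col_succ p j
        have c2 : col p (j + 1) = col p (j + 2) + p.parts.count (j + 2) := col_succ p (j + 1)
        have g1 : p.parts.count (j + 1) = 0 := Multiset.count_eq_zero.2 m2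
        have g2 : 0 < p.parts.count (j + 2) := Multiset.count_pos.2 m1
        have hle := col_le p j
        have e1 := lt_row_iff p (col p j - 1) (j + 1)
        have e2 := lt_row_iff p (col p j - 1) (j + 2)
        have f1 := e1.2 (by omega)
        have f2 : ¬ (j + 2 < row p (col p j - 1)) := fun h => by have := e2.1 h; omega
        refine ⟨⟨by omega, by omega⟩, by omega, by omega⟩
      · rintro ⟨i, j⟩ hc
        simp only [Finset.coe_filter, Finset.mem_product, Finset.mem_range, Set.mem_ofPred_eq] at hc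
        obtain ⟨⟨hi, hj⟩, h1, h2⟩ := hc
        have hj2 : j + 2 - 2 = j := by omega
        simp only [hj2, h2]
        simp
      · intro s hs
        simp only [Finset.coe_filter, Set.mem_ofPred_eq, Finset.mem_Icc] at hs
        simp only
        omega
    · refine Finset.card_nbij' (fun c => c.2 + 1) (fun s => (col p (s - 1) - 2, s - 1)) ?_ ?_ ?_ ?_
      · rintro ⟨i, j⟩ hc
        simp only [Finset.coe_filter, Finset.mem_product, Finset.mem_range, Set.mem_ofPred_eq,
          Finset.mem_Icc] at hc ⊢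
        obtain ⟨⟨hi, hj⟩, h1, h2⟩ := hc
        have e1 := lt_row_iff p i j
        have e2 := lt_row_iff p i (j + 1)
        have c1 := col_succ p j
        have f2 : ¬ i < col p (j + 1) := fun h => by have := e2.2 h; omega
        have g2 : 2 ≤ p.parts.count (j + 1) := by omega
        have m2 : j + 1 ∈ p.parts := Multiset.count_pos.1 (by omega)
        exact ⟨⟨by omega, p.le_of_mem_parts m2⟩, g2⟩
      · intro s hs
        simp only [Finset.coe_filter, Finset.mem_product, Finset.mem_range, Set.mem_ofPred_eq,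
          Finset.mem_Icc] at hs ⊢
        obtain ⟨⟨hs2, hsn⟩, m1⟩ := hs
        obtain ⟨j, rfl⟩ : ∃ j, s = j + 1 := ⟨s - 1, by omega⟩
        have hj2 : j + 1 - 1 = j := by omega
        rw [hj2]
        have c1 := col_succ p j
        have hle := col_le p j
        have e1 := lt_row_iff p (col p j - 2) j
        have e2 := lt_row_iff p (col p j - 2) (j + 1)
        have f1 := e1.2 (by omega)
        have f2 : ¬ (j + 1 < row p (col p j - 2)) := fun h => by have := e2.1 h; omega
        refine ⟨⟨by omega, by omega⟩, by omega, by omega⟩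
      · rintro ⟨i, j⟩ hc
        simp only [Finset.coe_filter, Finset.mem_product, Finset.mem_range, Set.mem_ofPred_eq] at hc
        obtain ⟨⟨hi, hj⟩, h1, h2⟩ := hc
        have hj2 : j + 1 - 1 = j := by omega
        simp only [hj2, h2]
        simp
      · intro s hs
        simp only [Finset.coe_filter, Set.mem_ofPred_eq, Finset.mem_Icc] at hs
        simp only
        omega
  · rw [Finset.disjoint_left]
    rintro ⟨i, j⟩ h1 h2
    simp only [Finset.mem_filter] at h1 h2
    omega

/-! ## Counting partitions with prescribed parts -/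

/-- The number of partitions of `n` all of whose parts satisfy `P`. -/
def num (P : ℕ → Prop) [DecidablePred P] (n : ℕ) : ℕ :=
  (Finset.univ.filter (fun p : n.Partition => ∀ m ∈ p.parts, P m)).card

/-- Partitions of `n` with parts satisfying `P` whose multiset of parts contains `M` are
equinumerous with the partitions of `n - M.sum` with parts satisfying `P`. -/
lemma card_contain (P : ℕ → Prop) [DecidablePred P] (n : ℕ) (M : Multiset ℕ)
    (hM : ∀ m ∈ M, P m ∧ 0 < m) :
    (Finset.univ.filter (fun p : n.Partition => (∀ m ∈ p.parts, P m) ∧ M ≤ p.parts)).card =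
      if M.sum ≤ n then num P (n - M.sum) else 0 := by
  classical
  split_ifs with h
  · unfold num
    refine Finset.card_bij'
      (fun p hp => (⟨p.parts - M, fun {i} hi => p.parts_pos
          (Multiset.mem_of_le (Multiset.sub_le_self _ _) hi), ?_⟩ :
        (n - M.sum).Partition))
      (fun q _ => (⟨q.parts + M, fun {i} hi => ?_, ?_⟩ : n.Partition)) ?_ ?_ ?_ ?_
    · have hp' := (Finset.mem_filter.1 hp).2.2
      have e : (p.parts - M) + M = p.parts := Multiset.sub_add_cancel hp'
      have e2 := congrArg Multiset.sum e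
      rw [Multiset.sum_add, p.parts_sum] at e2
      omega
    · rcases Multiset.mem_add.1 hi with hi | hi
      · exact q.parts_pos hi
      · exact (hM i hi).2
    · rw [Multiset.sum_add, q.parts_sum]
      omega
    · intro p hp
      have hp' := (Finset.mem_filter.1 hp).2
      simp only [Finset.mem_filter, Finset.mem_univ, true_and]
      intro m hm
      exact hp'.1 m (Multiset.mem_of_le (Multiset.sub_le_self _ _) hm)
    · intro q hq
      have hq' := (Finset.mem_filter.1 hq).2
      simp only [Finset.mem_filter, Finset.mem_univ, true_and]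
      refine ⟨fun m hm => ?_, Multiset.le_add_left _ _⟩
      rcases Multiset.mem_add.1 hm with hm | hm
      · exact hq' m hm
      · exact (hM m hm).1
    · intro p hp
      have hp' := (Finset.mem_filter.1 hp).2.2
      apply Nat.Partition.ext
      exact Multiset.sub_add_cancel hp'
    · intro q hq
      apply Nat.Partition.ext
      simp
  · rw [Finset.card_eq_zero, Finset.filter_eq_empty_iff]
    intro p _ hp
    apply h
    obtain ⟨u, hu⟩ := Multiset.le_iff_exists_add.1 hp.2
    have := congrArg Multiset.sum hu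
    rw [Multiset.sum_add, p.parts_sum] at this
    omega

/-- `v P N e` is the number of partitions of `N - e` with parts satisfying `P` (and `0` if
`e > N`). -/
def v (P : ℕ → Prop) [DecidablePred P] (N e : ℕ) : ℤ := if e ≤ N then (num P (N - e) : ℤ) else 0

lemma v_nonneg (P : ℕ → Prop) [DecidablePred P] (N e : ℕ) : 0 ≤ v P N e := by
  unfold v; split_ifs <;> positivity

lemma v_zero (P : ℕ → Prop) [DecidablePred P] {N e : ℕ} (h : N < e) : v P N e = 0 := by
  unfold v; rw [if_neg (by omega)]

lemma card_contain' (P : ℕ → Prop) [DecidablePred P] (n : ℕ) (M : Multiset ℕ)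
    (hM : ∀ m ∈ M, P m ∧ 0 < m) :
    ((Finset.univ.filter (fun p : n.Partition => (∀ m ∈ p.parts, P m) ∧ M ≤ p.parts)).card : ℤ) =
      v P n M.sum := by
  rw [card_contain P n M hM]
  unfold v
  split_ifs <;> simp

/-- Removing the part `r`. -/
lemma num_rec (P : ℕ → Prop) [DecidablePred P] (n r : ℕ) (hr : 0 < r) (hP : P r) :
    (num P n : ℤ) - v P n r = num (fun m => P m ∧ m ≠ r) n := by
  classical
  have h1 := card_contain' P n {r} (by simpa using ⟨hP, hr⟩)
  rw [Multiset.sum_singleton] at h1
  rw [← h1]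
  unfold num
  have h2 : (Finset.univ.filter (fun p : n.Partition => ∀ m ∈ p.parts, P m)) =
      (Finset.univ.filter (fun p : n.Partition => (∀ m ∈ p.parts, P m) ∧ {r} ≤ p.parts)) ∪
      (Finset.univ.filter (fun p : n.Partition => ∀ m ∈ p.parts, P m ∧ m ≠ r)) := by
    ext p
    simp only [Finset.mem_filter, Finset.mem_univ, true_and, Finset.mem_union,
      Multiset.singleton_le]
    constructor
    · intro h
      by_cases hr : r ∈ p.parts
      · exact Or.inl ⟨h, hr⟩
      · exact Or.inr fun m hm => ⟨h m hm, fun e => hr (e ▸ hm)⟩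
    · rintro (h | h)
      · exact h.1
      · exact fun m hm => (h m hm).1
  rw [h2, Finset.card_union_of_disjoint]
  · push_cast; ring
  · rw [Finset.disjoint_left]
    intro p hp1 hp2
    simp only [Finset.mem_filter, Finset.mem_univ, true_and, Multiset.singleton_le] at hp1 hp2
    exact (hp2 r hp1.2).2 rfl

lemma v_rec (P : ℕ → Prop) [DecidablePred P] (N e r : ℕ) (hr : 0 < r) (hP : P r) :
    v P N e - v P N (e + r) = v (fun m => P m ∧ m ≠ r) N e := by
  by_cases h : e ≤ N
  · have h1 := num_rec P (N - e) r hr hP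
    unfold v at h1 ⊢
    rw [if_pos h, if_pos h, ← h1]
    congr 1
    by_cases h2 : e + r ≤ N
    · rw [if_pos h2, if_pos (by omega)]
      congr 2
      omega
    · rw [if_neg h2, if_neg (by omega)]
  · rw [v_zero P (by omega), v_zero P (by omega), v_zero _ (by omega)]
    rfl

/-! ## The formula for the number of two-hooks -/

/-- The linear functional giving the number of two-hooks. -/
def Phi (t N : ℕ) (w : ℕ → ℤ) : ℤ :=
  ∑ s ∈ (Finset.Icc 1 N).filter (fun s => ¬ t ∣ s), w (2 * s) +
  ∑ s ∈ (Finset.Icc 2 N).filter (fun s => ¬ t ∣ s), w s -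
  ∑ s ∈ (Finset.Icc 2 N).filter (fun s => ¬ t ∣ s ∧ ¬ t ∣ s - 1), w (2 * s - 1)

lemma card_double (t n s : ℕ) (hs : 0 < s) :
    (((regular t n).filter (fun p => 2 ≤ p.parts.count s)).card : ℤ) =
      if t ∣ s then 0 else v (fun m => ¬ t ∣ m) n (2 * s) := by
  split_ifs with h
  · rw [Nat.cast_eq_zero, Finset.card_eq_zero, Finset.filter_eq_empty_iff]
    intro p hp h2
    simp only [regular, Finset.mem_filter, Finset.mem_univ, true_and] at hp
    have : s ∈ p.parts := Multiset.count_pos.1 (by omega)
    exact hp s this h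
  · have h1 := card_contain' (fun m => ¬ t ∣ m) n (Multiset.replicate 2 s) (by
      intro m hm
      rw [Multiset.eq_of_mem_replicate hm]
      exact ⟨h, hs⟩)
    rw [Multiset.sum_replicate, smul_eq_mul] at h1
    rw [← h1]
    congr 2
    ext p
    simp only [regular, Finset.mem_filter, Finset.mem_univ, true_and]
    rw [Multiset.le_count_iff_replicate_le]

lemma card_single (t n s : ℕ) (hs : 2 ≤ s) :
    (((regular t n).filter (fun p => s ∈ p.parts ∧ s - 1 ∉ p.parts)).card : ℤ) =
      if t ∣ s then 0 else v (fun m => ¬ t ∣ m) n s -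
        (if t ∣ s - 1 then 0 else v (fun m => ¬ t ∣ m) n (2 * s - 1)) := by
  classical
  split_ifs with h h'
  · rw [Nat.cast_eq_zero, Finset.card_eq_zero, Finset.filter_eq_empty_iff]
    intro p hp h2
    simp only [regular, Finset.mem_filter, Finset.mem_univ, true_and] at hp
    exact hp s h2.1 h
  · have h1 := card_contain' (fun m => ¬ t ∣ m) n {s} (by
      intro m hm
      rw [Multiset.mem_singleton.1 hm]
      exact ⟨h, by omega⟩)
    rw [Multiset.sum_singleton] at h1
    rw [← h1, sub_zero]
    congr 2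
    ext p
    simp only [regular, Finset.mem_filter, Finset.mem_univ, true_and, Multiset.singleton_le]
    constructor
    · rintro ⟨a, b, c⟩
      exact ⟨a, b⟩
    · rintro ⟨a, b⟩
      exact ⟨a, b, fun hm => a _ hm h'⟩
  · have h1 := card_contain' (fun m => ¬ t ∣ m) n {s} (by
      intro m hm
      rw [Multiset.mem_singleton.1 hm]
      exact ⟨h, by omega⟩)
    have h2 := card_contain' (fun m => ¬ t ∣ m) n (s ::ₘ {s - 1}) (by
      intro m hm
      rw [Multiset.mem_cons, Multiset.mem_singleton] at hm
      rcases hm with rfl | rfl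
      · exact ⟨h, by omega⟩
      · exact ⟨h', by omega⟩)
    rw [Multiset.sum_singleton] at h1
    rw [Multiset.sum_cons, Multiset.sum_singleton] at h2
    have e : s + (s - 1) = 2 * s - 1 := by omega
    rw [e] at h2
    rw [← h1, ← h2]
    have h3 : (Finset.univ.filter (fun p : n.Partition => (∀ m ∈ p.parts, ¬ t ∣ m) ∧
        {s} ≤ p.parts)) =
        ((regular t n).filter (fun p => s ∈ p.parts ∧ s - 1 ∉ p.parts)) ∪
        (Finset.univ.filter (fun p : n.Partition => (∀ m ∈ p.parts, ¬ t ∣ m) ∧
          (s ::ₘ {s - 1}) ≤ p.parts)) := by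
      ext p
      simp only [regular, Finset.mem_filter, Finset.mem_univ, true_and, Finset.mem_union,
        Multiset.singleton_le]
      have hne : s - 1 ∉ ({s} : Multiset ℕ) := by
        rw [Multiset.mem_singleton]; omega
      have : (s ::ₘ {s - 1}) ≤ p.parts ↔ s ∈ p.parts ∧ s - 1 ∈ p.parts := by
        constructor
        · intro hle
          exact ⟨Multiset.mem_of_le hle (by simp), Multiset.mem_of_le hle (by simp)⟩
        · rintro ⟨a, b⟩
          rw [Multiset.le_iff_subset]
          · intro x hx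
            rw [Multiset.mem_cons, Multiset.mem_singleton] at hx
            rcases hx with rfl | rfl
            · exact a
            · exact b
          · rw [Multiset.nodup_cons]
            refine ⟨?_, Multiset.nodup_singleton _⟩
            rw [Multiset.mem_singleton]; omega
      rw [this]
      tauto
    rw [h3, Finset.card_union_of_disjoint]
    · push_cast; ring
    · rw [Finset.disjoint_left]
      intro p hp1 hp2
      simp only [Finset.mem_filter, Finset.mem_univ, true_and] at hp1 hp2
      exact hp1.2.2 (Multiset.mem_of_le hp2.2 (by simp))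

lemma b_eq (t n : ℕ) : (b t 2 n : ℤ) = Phi t n (v (fun m => ¬ t ∣ m) n) := by
  classical
  unfold b Phi
  simp only [hookCount_two]
  push_cast
  rw [Finset.sum_add_distrib]
  have hA : ∑ p ∈ regular t n,
      (((Finset.Icc 2 n).filter (fun s => s ∈ p.parts ∧ s - 1 ∉ p.parts)).card : ℤ) =
      ∑ s ∈ Finset.Icc 2 n,
        (((regular t n).filter (fun p => s ∈ p.parts ∧ s - 1 ∉ p.parts)).card : ℤ) := by
    simp only [Finset.card_filter]
    push_cast
    rw [Finset.sum_comm]
  have hB : ∑ p ∈ regular t n,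
      (((Finset.Icc 1 n).filter (fun s => 2 ≤ p.parts.count s)).card : ℤ) =
      ∑ s ∈ Finset.Icc 1 n,
        (((regular t n).filter (fun p => 2 ≤ p.parts.count s)).card : ℤ) := by
    simp only [Finset.card_filter]
    push_cast
    rw [Finset.sum_comm]
  rw [hA, hB]
  have hA' : ∑ s ∈ Finset.Icc 2 n,
        (((regular t n).filter (fun p => s ∈ p.parts ∧ s - 1 ∉ p.parts)).card : ℤ) =
      ∑ s ∈ (Finset.Icc 2 n).filter (fun s => ¬ t ∣ s), v (fun m => ¬ t ∣ m) n s -
      ∑ s ∈ (Finset.Icc 2 n).filter (fun s => ¬ t ∣ s ∧ ¬ t ∣ s - 1),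
        v (fun m => ¬ t ∣ m) n (2 * s - 1) := by
    rw [Finset.sum_filter, Finset.sum_filter, ← Finset.sum_sub_distrib]
    refine Finset.sum_congr rfl fun s hs => ?_
    rw [card_single t n s (Finset.mem_Icc.1 hs).1]
    by_cases h1 : t ∣ s <;> by_cases h2 : t ∣ s - 1 <;> simp [h1, h2]
  have hB' : ∑ s ∈ Finset.Icc 1 n,
        (((regular t n).filter (fun p => 2 ≤ p.parts.count s)).card : ℤ) =
      ∑ s ∈ (Finset.Icc 1 n).filter (fun s => ¬ t ∣ s), v (fun m => ¬ t ∣ m) n (2 * s) := by
    rw [Finset.sum_filter]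
    refine Finset.sum_congr rfl fun s hs => ?_
    rw [card_double t n s (Finset.mem_Icc.1 hs).1]
    by_cases h1 : t ∣ s <;> simp [h1]
  rw [hA', hB']
  ring

/-! ## The inequality -/

lemma Phi_sub (t N : ℕ) (w w' : ℕ → ℤ) :
    Phi t N (fun e => w e - w' e) = Phi t N w - Phi t N w' := by
  unfold Phi
  simp only [Finset.sum_sub_distrib]
  ring

/-- For even `T` the coefficients of the functional are nonnegative. -/
lemma Phi_nonneg (T N : ℕ) (hT : 2 ∣ T) (w : ℕ → ℤ) (hw : ∀ e, 0 ≤ w e)
    (hz : ∀ e, N < e → w e = 0) : 0 ≤ Phi T N w := by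
  unfold Phi
  have h1 : 0 ≤ ∑ s ∈ (Finset.Icc 1 N).filter (fun s => ¬ T ∣ s), w (2 * s) :=
    Finset.sum_nonneg fun _ _ => hw _
  have h2 : ∑ s ∈ (Finset.Icc 2 N).filter (fun s => ¬ T ∣ s ∧ ¬ T ∣ s - 1), w (2 * s - 1) ≤
      ∑ s ∈ (Finset.Icc 2 N).filter (fun s => ¬ T ∣ s), w s := by
    calc ∑ s ∈ (Finset.Icc 2 N).filter (fun s => ¬ T ∣ s ∧ ¬ T ∣ s - 1), w (2 * s - 1)
        ≤ ∑ s ∈ Finset.Icc 2 N, w (2 * s - 1) :=
          Finset.sum_le_sum_of_subset_of_nonneg (Finset.filter_subset _ _) fun _ _ _ => hw _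
      _ = ∑ s ∈ (Finset.Icc 2 N).filter (fun s => 2 * s - 1 ≤ N), w (2 * s - 1) := by
          symm
          apply Finset.sum_filter_of_ne
          intro s _ hs
          by_contra hcon
          exact hs (hz _ (by omega))
      _ = ∑ m ∈ ((Finset.Icc 2 N).filter (fun s => 2 * s - 1 ≤ N)).image (fun s => 2 * s - 1),
            w m := by
          rw [Finset.sum_image]
          intro x hx y hy hxy
          simp only [Finset.coe_filter, Finset.mem_Icc, Set.mem_ofPred_eq] at hx hy
          simp only at hxy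
          omega
      _ ≤ _ := by
          apply Finset.sum_le_sum_of_subset_of_nonneg
          · intro m hm
            rw [Finset.mem_image] at hm
            obtain ⟨s, hs, rfl⟩ := hm
            rw [Finset.mem_filter, Finset.mem_Icc] at hs
            rw [Finset.mem_filter, Finset.mem_Icc]
            refine ⟨⟨by omega, by omega⟩, fun hd => ?_⟩
            have := hT.trans hd
            omega
          · intro _ _ _
            exact hw _
  linarith

lemma sum_mult (t N : ℕ) (ht : 0 < t) (h : ℕ → ℤ) (hz : ∀ s, N < s → h s = 0) :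
    ∑ s ∈ (Finset.Icc 1 N).filter (fun s => t ∣ s), h s = ∑ k ∈ Finset.Icc 1 N, h (t * k) := by
  have h1 : ∑ k ∈ Finset.Icc 1 N, h (t * k) =
      ∑ k ∈ (Finset.Icc 1 N).filter (fun k => t * k ≤ N), h (t * k) := by
    symm
    apply Finset.sum_filter_of_ne
    intro k _ hk
    by_contra hcon
    exact hk (hz _ (by omega))
  rw [h1]
  refine Finset.sum_nbij' (fun s => s / t) (fun k => t * k) ?_ ?_ ?_ ?_ ?_
  · intro s hs
    rw [Finset.mem_filter, Finset.mem_Icc] at hs
    obtain ⟨⟨a, c⟩, ⟨k, rfl⟩⟩ := hs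
    rw [Finset.mem_filter, Finset.mem_Icc]
    rw [Nat.mul_div_cancel_left k ht]
    refine ⟨⟨?_, ?_⟩, c⟩
    · rcases Nat.eq_zero_or_pos k with rfl | hk
      · simp at a
      · exact hk
    · exact le_trans (Nat.le_mul_of_pos_left k ht) c
  · intro k hk
    rw [Finset.mem_filter, Finset.mem_Icc] at hk
    rw [Finset.mem_filter, Finset.mem_Icc]
    exact ⟨⟨Nat.mul_pos ht (by omega), hk.2⟩, Dvd.intro k rfl⟩
  · intro s hs
    rw [Finset.mem_filter, Finset.mem_Icc] at hs
    exact Nat.mul_div_cancel' hs.2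
  · intro k hk
    exact Nat.mul_div_cancel_left k ht
  · intro s hs
    rw [Finset.mem_filter, Finset.mem_Icc] at hs
    rw [Nat.mul_div_cancel' hs.2]

lemma sum_odd_even (N : ℕ) (h : ℕ → ℤ) (hz : ∀ s, N < s → h s = 0) :
    ∑ k ∈ Finset.Icc 1 N, h k = ∑ k ∈ Finset.Icc 1 N, (h (2 * k - 1) + h (2 * k)) := by
  have h1 : ∀ M : ℕ, ∑ k ∈ Finset.Icc 1 (2 * M), h k =
      ∑ k ∈ Finset.Icc 1 M, (h (2 * k - 1) + h (2 * k)) := by
    intro M
    induction M with
    | zero => simp
    | succ M ih =>
      have e : 2 * (M + 1) = (2 * M + 1) + 1 := by ring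
      rw [e, Finset.sum_Icc_succ_top (by omega), Finset.sum_Icc_succ_top (by omega), ih,
        Finset.sum_Icc_succ_top (by omega : 1 ≤ M + 1)]
      have e2 : 2 * (M + 1) - 1 = 2 * M + 1 := by omega
      rw [e2, e]
      ring
  rw [← h1 N]
  apply Finset.sum_subset
  · intro x hx
    rw [Finset.mem_Icc] at hx ⊢
    omega
  · intro x hx hx'
    rw [Finset.mem_Icc] at hx hx'
    exact hz x (by omega)

/-- The part of the functional which does not depend on `t`. -/
def CC (N : ℕ) (w : ℕ → ℤ) : ℤ :=
  ∑ s ∈ Finset.Icc 1 N, w (2 * s) + ∑ s ∈ Finset.Icc 2 N, w s - ∑ s ∈ Finset.Icc 2 N, w (2 * s - 1)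

lemma Phi_eq (t N : ℕ) (ht : 2 ≤ t) (w : ℕ → ℤ) (hz : ∀ e, N < e → w e = 0) :
    Phi t N w = CC N w - ∑ k ∈ Finset.Icc 1 N,
      (w (2 * (t * k)) + w (t * k) - w (2 * (t * k) - 1) - w (2 * (t * k) + 1)) := by
  have hsame : (Finset.Icc 2 N).filter (fun s => t ∣ s) = (Finset.Icc 1 N).filter (fun s => t ∣ s) := by
    ext s
    simp only [Finset.mem_filter, Finset.mem_Icc]
    constructor
    · rintro ⟨⟨a, c⟩, d⟩
      exact ⟨⟨by omega, c⟩, d⟩
    · rintro ⟨⟨a, c⟩, d⟩
      have := Nat.le_of_dvd (by omega) d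
      exact ⟨⟨by omega, c⟩, d⟩
  have e1 := Finset.sum_filter_add_sum_filter_not (Finset.Icc 1 N) (fun s => t ∣ s)
    (fun s => w (2 * s))
  have e2 := Finset.sum_filter_add_sum_filter_not (Finset.Icc 2 N) (fun s => t ∣ s) w
  have e3 := Finset.sum_filter_add_sum_filter_not (Finset.Icc 2 N) (fun s => t ∣ s)
    (fun s => w (2 * s - 1))
  have e4 := Finset.sum_filter_add_sum_filter_not ((Finset.Icc 2 N).filter (fun s => ¬ t ∣ s))
    (fun s => t ∣ s - 1) (fun s => w (2 * s - 1))
  rw [Finset.filter_filter, Finset.filter_filter] at e4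
  have m1 := sum_mult t N (by omega) (fun s => w (2 * s)) (fun s hs => hz _ (by omega))
  have m2 := sum_mult t N (by omega) w hz
  have m3 := sum_mult t N (by omega) (fun s => if s = 0 then 0 else w (2 * s - 1))
    (fun s hs => by
      rw [if_neg (by omega)]
      exact hz _ (by omega))
  have m3' : ∑ s ∈ (Finset.Icc 1 N).filter (fun s => t ∣ s), w (2 * s - 1) =
      ∑ k ∈ Finset.Icc 1 N, w (2 * (t * k) - 1) := by
    calc _ = ∑ s ∈ (Finset.Icc 1 N).filter (fun s => t ∣ s), (if s = 0 then 0 else w (2 * s - 1)) := by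
          refine Finset.sum_congr rfl fun s hs => ?_
          rw [Finset.mem_filter, Finset.mem_Icc] at hs
          rw [if_neg (by omega)]
      _ = _ := m3
      _ = _ := by
          refine Finset.sum_congr rfl fun k hk => ?_
          rw [Finset.mem_Icc] at hk
          have : 0 < t * k := Nat.mul_pos (by omega) (by omega)
          rw [if_neg (by omega)]
  have m4 := sum_mult t N (by omega) (fun s => w (2 * s + 1)) (fun s hs => hz _ (by omega))
  have m4' : ∑ s ∈ (Finset.Icc 2 N).filter (fun s => ¬ t ∣ s ∧ t ∣ s - 1), w (2 * s - 1) =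
      ∑ s ∈ (Finset.Icc 1 N).filter (fun s => t ∣ s), w (2 * s + 1) := by
    have : ∑ s ∈ (Finset.Icc 1 N).filter (fun s => t ∣ s), w (2 * s + 1) =
        ∑ s ∈ ((Finset.Icc 1 N).filter (fun s => t ∣ s)).filter (fun s => s + 1 ≤ N),
          w (2 * s + 1) := by
      symm
      apply Finset.sum_filter_of_ne
      intro s _ hs
      by_contra hcon
      exact hs (hz _ (by omega))
    rw [this]
    refine Finset.sum_nbij' (fun s => s - 1) (fun s => s + 1) ?_ ?_ ?_ ?_ ?_
    · intro s hs
      simp only [Finset.mem_filter, Finset.mem_Icc] at hs ⊢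
      refine ⟨⟨⟨by omega, by omega⟩, hs.2.2⟩, by omega⟩
    · intro s hs
      simp only [Finset.mem_filter, Finset.mem_Icc] at hs ⊢
      obtain ⟨⟨⟨a, c⟩, d⟩, e⟩ := hs
      refine ⟨⟨by omega, e⟩, ?_, by simpa using d⟩
      intro hd
      have h1 := (Nat.dvd_add_right d).1 hd
      have h2 := Nat.le_of_dvd (by omega) h1
      omega
    · intro s hs
      simp only [Finset.mem_filter, Finset.mem_Icc] at hs
      omega
    · intro s hs
      simp
    · intro s hs
      simp only [Finset.mem_filter, Finset.mem_Icc] at hs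
      congr 1
      omega
  unfold Phi CC
  rw [Finset.sum_sub_distrib, Finset.sum_sub_distrib, Finset.sum_add_distrib]
  rw [hsame] at e2 e3
  linarith

/-- Each block of the difference is nonnegative. -/
lemma block (t k : ℕ) (ht : 3 ≤ t) (hk : 1 ≤ k) (w : ℕ → ℤ)
    (h1 : ∀ e, 0 ≤ w e - w (e + 1))
    (h2 : ∀ e, w (e + 2) - w (e + 2 + 1) ≤ w e - w (e + 1))
    (h3 : ∀ e, w (e + (t - 1)) - w (e + (t - 1) + 1) ≤ w e - w (e + 1)) :
    0 ≤ w (t * (2 * k - 1)) - w ((t + 1) * (2 * k - 1)) + 2 * w (2 * (t * k)) -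
      2 * w (2 * ((t + 1) * k)) - w (2 * (t * k) - 1) + w (2 * ((t + 1) * k) - 1) -
      w (2 * (t * k) + 1) + w (2 * ((t + 1) * k) + 1) := by
  have anti : ∀ e d, w (e + d) ≤ w e := by
    intro e d
    induction d with
    | zero => simp
    | succ d ih =>
      have := h1 (e + d)
      rw [← add_assoc]
      linarith
  have step : ∀ e d, w (e + 2 * d) - w (e + 2 * d + 1) ≤ w e - w (e + 1) := by
    intro e d
    induction d with
    | zero => simp
    | succ d ih =>
      have := h2 (e + 2 * d)
      have e1 : e + 2 * (d + 1) = e + 2 * d + 2 := by ring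
      rw [e1]
      linarith
  obtain ⟨j, rfl⟩ : ∃ j, k = j + 1 := ⟨k - 1, by omega⟩
  obtain ⟨u, rfl⟩ : ∃ u, t = u + 1 := ⟨t - 1, by omega⟩
  have a1 := anti ((u + 1) * (2 * j + 1) + 1) (2 * j)
  have a2 := h3 ((u + 1) * (2 * j + 1))
  have a3 := step (2 * ((u + 1) * (j + 1))) (j + 1)
  have a4 := h1 (2 * ((u + 1 + 1) * (j + 1)) - 1)
  have hpos : 0 < (u + 1) * (j + 1) := by positivity
  have hpos2 : 0 < (u + 1 + 1) * (j + 1) := by positivity
  have f1 : (u + 1) * (2 * (j + 1) - 1) = (u + 1) * (2 * j + 1) := by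
    congr 1
  have f2 : (u + 1 + 1) * (2 * (j + 1) - 1) = (u + 1) * (2 * j + 1) + 1 + 2 * j := by
    have : 2 * (j + 1) - 1 = 2 * j + 1 := by omega
    rw [this]; ring
  have f3 : (u + 1) * (2 * j + 1) + (u + 1 - 1) = 2 * ((u + 1) * (j + 1)) - 1 := by
    have e1 : u + 1 - 1 = u := by omega
    rw [e1]
    have : 2 * ((u + 1) * (j + 1)) = (u + 1) * (2 * j + 1) + u + 1 := by ring
    omega
  have f4 : 2 * ((u + 1) * (j + 1)) - 1 + 1 = 2 * ((u + 1) * (j + 1)) := by omega
  have f5 : 2 * ((u + 1) * (j + 1)) + 2 * (j + 1) = 2 * ((u + 1 + 1) * (j + 1)) := by ring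
  have f6 : 2 * ((u + 1 + 1) * (j + 1)) - 1 + 1 = 2 * ((u + 1 + 1) * (j + 1)) := by omega
  rw [f3, f4] at a2
  rw [f5] at a3
  rw [f6] at a4
  rw [f1, f2]
  linarith

lemma Phi_diff (t N : ℕ) (ht : 3 ≤ t) (w : ℕ → ℤ) (hz : ∀ e, N < e → w e = 0)
    (h1 : ∀ e, 0 ≤ w e - w (e + 1))
    (h2 : ∀ e, w (e + 2) - w (e + 2 + 1) ≤ w e - w (e + 1))
    (h3 : ∀ e, w (e + (t - 1)) - w (e + (t - 1) + 1) ≤ w e - w (e + 1)) :
    Phi t N w ≤ Phi (t + 1) N w := by
  rw [Phi_eq t N (by omega) w hz, Phi_eq (t + 1) N (by omega) w hz]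
  have hz' : ∀ c, 0 < c → ∀ s, N < s → w (c * s) = 0 := by
    intro c hc s hs
    apply hz
    calc N < s := hs
      _ ≤ c * s := Nat.le_mul_of_pos_left s hc
  have s1 := sum_odd_even N (fun k => w (t * k)) (hz' t (by omega))
  have s2 := sum_odd_even N (fun k => w ((t + 1) * k)) (hz' (t + 1) (by omega))
  have hb : 0 ≤ ∑ k ∈ Finset.Icc 1 N,
      (w (t * (2 * k - 1)) - w ((t + 1) * (2 * k - 1)) + 2 * w (2 * (t * k)) -
      2 * w (2 * ((t + 1) * k)) - w (2 * (t * k) - 1) + w (2 * ((t + 1) * k) - 1) -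
      w (2 * (t * k) + 1) + w (2 * ((t + 1) * k) + 1)) :=
    Finset.sum_nonneg fun k hk => block t k ht (Finset.mem_Icc.1 hk).1 w h1 h2 h3
  have c1 : ∑ k ∈ Finset.Icc 1 N, w (t * (2 * k)) = ∑ k ∈ Finset.Icc 1 N, w (2 * (t * k)) :=
    Finset.sum_congr rfl fun k _ => by congr 1; ring
  have c2 : ∑ k ∈ Finset.Icc 1 N, w ((t + 1) * (2 * k)) =
      ∑ k ∈ Finset.Icc 1 N, w (2 * ((t + 1) * k)) :=
    Finset.sum_congr rfl fun k _ => by congr 1; ring
  rw [Finset.sum_add_distrib, c1] at s1
  rw [Finset.sum_add_distrib, c2] at s2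
  simp only [Finset.sum_add_distrib, Finset.sum_sub_distrib, ← Finset.mul_sum] at hb ⊢
  linarith

lemma regular_props (T N r : ℕ) (hT : 2 ≤ T) (hr : 2 ≤ r) (hTr : ¬ T ∣ r) (e : ℕ) :
    v (fun m => ¬ T ∣ m) N (e + r) - v (fun m => ¬ T ∣ m) N (e + r + 1) ≤
      v (fun m => ¬ T ∣ m) N e - v (fun m => ¬ T ∣ m) N (e + 1) := by
  have h1 : ¬ T ∣ 1 := fun h => by
    have := Nat.le_of_dvd (by omega) h
    omega
  have a1 := v_rec (fun m => ¬ T ∣ m) N e 1 (by omega) h1
  have a2 := v_rec (fun m => ¬ T ∣ m) N (e + r) 1 (by omega) h1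
  have a3 := v_rec (fun m => ¬ T ∣ m ∧ m ≠ 1) N e r (by omega) ⟨hTr, by omega⟩
  have a4 := v_nonneg (fun m => (¬ T ∣ m ∧ m ≠ 1) ∧ m ≠ r) N e
  rw [a1, a2]
  linarith

lemma regular_anti (T N : ℕ) (hT : 2 ≤ T) (e : ℕ) :
    0 ≤ v (fun m => ¬ T ∣ m) N e - v (fun m => ¬ T ∣ m) N (e + 1) := by
  have h1 : ¬ T ∣ 1 := fun h => by
    have := Nat.le_of_dvd (by omega) h
    omega
  rw [v_rec (fun m => ¬ T ∣ m) N e 1 (by omega) h1]
  exact v_nonneg _ _ _

lemma num_mono (t n : ℕ) (ht : 0 < t) :
    num (fun m => ¬ t ∣ m) n ≤ num (fun m => ¬ (t + 1) ∣ m) n := by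
  have h1 := Nat.Partition.card_restricted_eq_card_countRestricted n ht
  have h2 := Nat.Partition.card_restricted_eq_card_countRestricted n (Nat.succ_pos t)
  have e1 : num (fun m => ¬ t ∣ m) n = (Nat.Partition.restricted n (¬ t ∣ ·)).card := rfl
  have e2 : num (fun m => ¬ (t + 1) ∣ m) n = (Nat.Partition.restricted n (¬ (t + 1) ∣ ·)).card :=
    rfl
  rw [e1, e2, h1, h2]
  apply Finset.card_le_card
  intro p hp
  unfold Nat.Partition.countRestricted at hp ⊢
  rw [Finset.mem_filter] at hp ⊢
  exact ⟨hp.1, fun i hi => lt_trans (hp.2 i hi) (Nat.lt_succ_self t)⟩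

lemma v_mono (t N e : ℕ) (ht : 0 < t) :
    v (fun m => ¬ t ∣ m) N e ≤ v (fun m => ¬ (t + 1) ∣ m) N e := by
  unfold v
  split_ifs
  · exact_mod_cast num_mono t (N - e) ht
  · exact le_refl _

/-- **Monotonicity in `t` of the number of hooks of length two in `t`-regular partitions.**
For all `t ≥ 3` and all `n`, `b_{t,2}(n) ≤ b_{t+1,2}(n)`. -/
theorem result : ∀ t : ℕ, 3 ≤ t → ∀ n : ℕ, b t 2 n ≤ b (t + 1) 2 n := by
  intro t ht n
  have key : (b t 2 n : ℤ) ≤ b (t + 1) 2 n := by
    rw [b_eq, b_eq]
    have hzt : ∀ T e, n < e → v (fun m => ¬ T ∣ m) n e = 0 := fun T e he => v_zero _ he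
    have ht2 : ¬ t ∣ 2 := fun h => by
      have := Nat.le_of_dvd (by omega) h
      omega
    have ht2' : ¬ (t + 1) ∣ 2 := fun h => by
      have := Nat.le_of_dvd (by omega) h
      omega
    have ht3 : ¬ t ∣ t - 1 := fun h => by
      have := Nat.le_of_dvd (by omega) h
      omega
    have ht3' : ¬ (t + 1) ∣ t - 1 := fun h => by
      have := Nat.le_of_dvd (by omega) h
      omega
    have hd : ∀ e, 0 ≤ v (fun m => ¬ (t + 1) ∣ m) n e - v (fun m => ¬ t ∣ m) n e := fun e =>
      sub_nonneg.2 (v_mono t n e (by omega))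
    rcases Nat.even_or_odd t with hev | hodd
    · have p1 := Phi_diff t n ht (v (fun m => ¬ (t + 1) ∣ m) n) (hzt (t + 1))
        (regular_anti (t + 1) n (by omega))
        (regular_props (t + 1) n 2 (by omega) (le_refl _) ht2')
        (regular_props (t + 1) n (t - 1) (by omega) (by omega) ht3')
      have p2 := Phi_nonneg t n hev.two_dvd _ hd (fun e he => by
        rw [hzt (t + 1) e he, hzt t e he, sub_zero])
      rw [Phi_sub] at p2
      linarith
    · have p1 := Phi_diff t n ht (v (fun m => ¬ t ∣ m) n) (hzt t)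
        (regular_anti t n (by omega))
        (regular_props t n 2 (by omega) (le_refl _) ht2)
        (regular_props t n (t - 1) (by omega) (by omega) ht3)
      have p2 := Phi_nonneg (t + 1) n (by
          obtain ⟨r, hr⟩ := hodd
          exact ⟨r + 1, by omega⟩) _ hd (fun e he => by
        rw [hzt (t + 1) e he, hzt t e he, sub_zero])
      rw [Phi_sub] at p2
      linarith
  exact_mod_cast key

end Pool.Agent.Results.MP_6996b5_co.TwoHookMono
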